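import Pool.Agent.Q181.TG.Stm2

set_option autoImplicit false

/-! The component of a vertex with a nontrivial stabiliser is a net and a strip. -/

namespace Pool.Agent.Q66.TG

open Pool.Agent.Q181.BD Pool.Agent.Q181.TG TH57.Thr

section

variable {G : Type} [Group G] {ι κ : Type}

theorem wz_side (A : Matrix ι κ (MonoidAlgebra ℤ G)) (g : G) (v : Vx G ι κ) :
    wz A v (mv g v) = 0 := by
  rcases v with p | q <;> rfl

theorem adj_wz (A : Matrix ι κ (MonoidAlgebra ℤ G)) (u v : Vx G ι κ) :
    (gr A).Adj u v ↔ wz A u v ≠ 0 := by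
  rw [gr_adj, ← wz_cast]
  exact_mod_cast Iff.rfl

end

theorem t_cmp : S_cmp := by
  intro G _ htf ι κ _ _ _ _ A c hN b s hs hst
  classical
  have hsm : ∀ n : ℤ, s ^ n ∈ stab A b := fun n => by
    rw [hst]
    exact Subgroup.zpow_mem_zpowers s n
  have hre : ∀ g ∈ stab A b, ∀ v : Vx G ι κ, (gr A).Reachable b v →
      (gr A).Reachable b (mv g v) := fun g hg v hv =>
    SimpleGraph.Reachable.trans hg (reachable_mv A g hv)
  have hs1 : s ∈ stab A b := by simpa using hsm 1
  have hs2 : s⁻¹ ∈ stab A b := (stab A b).inv_mem hs1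
  let T : Equiv.Perm {v : Vx G ι κ // (gr A).Reachable b v} :=
    { toFun := fun v => ⟨mv s v.1, hre s hs1 v.1 v.2⟩
      invFun := fun v => ⟨mv s⁻¹ v.1, hre s⁻¹ hs2 v.1 v.2⟩
      left_inv := fun v => Subtype.ext (by
        change mv s⁻¹ (mv s v.1) = v.1
        rw [← mv_mul, inv_mul_cancel, mv_one])
      right_inv := fun v => Subtype.ext (by
        change mv s (mv s⁻¹ v.1) = v.1
        rw [← mv_mul, mul_inv_cancel, mv_one]) }
  have hT1 : ∀ v, (T v).1 = mv s v.1 := fun v => rfl
  have hT2 : ∀ v, (T⁻¹ v).1 = mv s⁻¹ v.1 := fun v => rfl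
  have hTn : ∀ (n : ℤ) v, ((T ^ n) v).1 = mv (s ^ n) v.1 := by
    intro n
    induction n using Int.induction_on with
    | zero => intro v; rw [zpow_zero, zpow_zero, mv_one]; rfl
    | succ n ih =>
      intro v
      rw [zpow_add_one, Equiv.Perm.mul_apply, ih, hT1, ← mv_mul, zpow_add_one]
    | pred n ih =>
      intro v
      rw [zpow_sub_one, Equiv.Perm.mul_apply, ih, hT2, ← mv_mul, zpow_sub_one]
  refine ⟨T, hT1, ?_, ?_⟩
  · refine ⟨fun u v => hN.symm _ _, ?_, ?_, hN.lt⟩
    · obtain ⟨t, ht⟩ := hN.side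
      exact ⟨fun v => t v.1, fun u v h => ht _ _ h⟩
    · intro S f
      obtain ⟨F, hF⟩ : ∃ F : Vx G ι κ → ℝ,
          ∀ x : {v : Vx G ι κ // (gr A).Reachable b v}, F x.1 = f x :=
        ⟨fun v => if h : (gr A).Reachable b v then f ⟨v, h⟩ else 0, fun x => dif_pos x.2⟩
      have := hN.form (S.map (Function.Embedding.subtype _)) F
      simp only [Finset.sum_map, Function.Embedding.subtype_apply, hF] at this
      exact this
  · refine ⟨fun u v => hN.symm _ _, fun u v => ?_, fun n v h => ?_, ?_, fun u v => ?_,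
      fun n v => ?_, fun u => ?_⟩
    · exact wz_mv A s u.1 v.1
    · have h1 : mv (s ^ n) v.1 = v.1 := by
        rw [← hTn, h]
      have h2 := mv_free (s ^ n) v.1 h1
      by_contra hn
      refine hs (htf s n.natAbs (Int.natAbs_pos.mpr hn) ?_)
      rcases Int.natAbs_eq n with h3 | h3
      · rw [h3, zpow_natCast] at h2
        exact h2
      · rw [h3, zpow_neg, zpow_natCast, inv_eq_one] at h2
        exact h2
    · refine ⟨Finset.univ.biUnion (fun p : ι ⊕ κ =>
        if h : ∃ v : {v : Vx G ι κ // (gr A).Reachable b v}, ix v.1 = p then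
          {Classical.choose h} else ∅), fun v => ?_⟩
      have hex : ∃ w : {v : Vx G ι κ // (gr A).Reachable b v}, ix w.1 = ix v.1 := ⟨v, rfl⟩
      obtain ⟨w, hw⟩ : ∃ w, w = Classical.choose hex := ⟨_, rfl⟩
      have hwix : ix w.1 = ix v.1 := by
        rw [hw]
        exact Classical.choose_spec hex
      have h1 : mv (ge v.1 * (ge w.1)⁻¹) w.1 = v.1 := by
        calc mv (ge v.1 * (ge w.1)⁻¹) w.1
            = mv (ge v.1 * (ge w.1)⁻¹) (mv (ge w.1) (bs (ix w.1))) := by rw [mv_ge_bs w.1]
          _ = v.1 := by rw [← mv_mul, inv_mul_cancel_right, hwix, mv_ge_bs]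
      have h2 : ge v.1 * (ge w.1)⁻¹ ∈ stab A b := by
        rw [mem_stab]
        have h3 := reachable_mv A (ge v.1 * (ge w.1)⁻¹) w.2
        rw [h1] at h3
        exact v.2.trans h3.symm
      rw [hst, Subgroup.mem_zpowers_iff] at h2
      obtain ⟨n, hn⟩ := h2
      refine ⟨-n, ?_⟩
      have h4 : (T ^ (-n)) v = w := by
        apply Subtype.ext
        rw [hTn, zpow_neg, hn]
        have h5 := congrArg (mv (ge v.1 * (ge w.1)⁻¹)⁻¹) h1
        rw [← mv_mul, inv_mul_cancel, mv_one] at h5
        exact h5.symm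
      rw [h4, Finset.mem_biUnion]
      refine ⟨ix v.1, Finset.mem_univ _, ?_⟩
      rw [dif_pos hex, hw]
      exact Finset.mem_singleton_self _
    · have h1 : (gr A).Reachable u.1 v.1 := u.2.symm.trans v.2
      rw [SimpleGraph.reachable_iff_reflTransGen] at h1
      have key : ∀ x : Vx G ι κ, Relation.ReflTransGen (gr A).Adj u.1 x →
          ∃ hx : (gr A).Reachable b x,
            Conn (fun u v : {v : Vx G ι κ // (gr A).Reachable b v} => wz A u.1 v.1) u ⟨x, hx⟩ := by
        intro x hx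
        induction hx with
        | refl => exact ⟨u.2, Relation.ReflTransGen.refl⟩
        | tail _ hbc ih =>
          obtain ⟨hy, hc⟩ := ih
          exact ⟨hy.trans hbc.reachable, Relation.ReflTransGen.tail hc ((adj_wz A _ _).mp hbc)⟩
      obtain ⟨hx, hc⟩ := key v.1 h1
      exact hc
    · rw [hTn]
      exact wz_side A _ _
    · obtain ⟨F, hF, -⟩ := nbr_row A u.1
      refine Set.Finite.of_finite_image (f := Subtype.val) ?_ Subtype.val_injective.injOn
      refine F.finite_toSet.subset ?_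
      rintro _ ⟨v, hv, rfl⟩
      exact hF ((adj_wz A _ _).mpr hv)

end Pool.Agent.Q66.TG
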