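import Pool.Agent.Q181.TG.Stm3

set_option autoImplicit false

/-! The torsion of the homology. -/

namespace Pool.Agent.Q66.TG

open Pool.Agent.Q181.TG Matrix

/-- an injective homomorphism whose image contains the torsion -/
theorem tc_eq {E E' : Type} [AddCommGroup E] [AddCommGroup E'] (φ : E →+ E')
    (hi : Function.Injective φ) (ht : ∀ y ∈ AddCommGroup.torsion E', ∃ x, φ x = y) :
    tc E = tc E' := by
  unfold tc
  refine Nat.card_congr (Equiv.ofBijective
    (fun x : AddCommGroup.torsion E => (⟨φ x.1, ?_⟩ : AddCommGroup.torsion E')) ⟨?_, ?_⟩)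
  · exact φ.isOfFinAddOrder x.2
  · intro x y h
    exact Subtype.ext (hi (congrArg Subtype.val h))
  · rintro ⟨y, hy⟩
    obtain ⟨x, hx⟩ := ht y hy
    refine ⟨⟨x, ?_⟩, Subtype.ext hx⟩
    have h1 : IsOfFinAddOrder (φ x) := by
      rw [hx]
      exact hy
    obtain ⟨k, hk, hk'⟩ := isOfFinAddOrder_iff_nsmul_eq_zero.mp h1
    refine isOfFinAddOrder_iff_nsmul_eq_zero.mpr ⟨k, hk, hi ?_⟩
    rw [map_nsmul, hk', map_zero]

theorem t_hom : S_hom := by
  intro α β γ _ M N hMN
  have hsub : Submodule.span ℤ (Set.range M) ≤ LinearMap.ker N.vecMulLinear := by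
    rw [Submodule.span_le]
    rintro _ ⟨a, rfl⟩
    rw [SetLike.mem_coe, LinearMap.mem_ker]
    funext c
    have h1 := congrFun (congrFun hMN a) c
    rw [Matrix.mul_apply] at h1
    exact h1
  let φ : (LinearMap.ker N.vecMulLinear ⧸
      (Submodule.span ℤ (Set.range M)).submoduleOf (LinearMap.ker N.vecMulLinear)) →ₗ[ℤ]
        Cok M :=
    Submodule.mapQ _ _ (LinearMap.ker N.vecMulLinear).subtype le_rfl
  refine tc_eq φ.toAddMonoidHom ?_ ?_
  · change Function.Injective φ
    rw [← LinearMap.ker_eq_bot, LinearMap.ker_eq_bot']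
    intro x hx
    obtain ⟨v, rfl⟩ := Submodule.Quotient.mk_surjective _ x
    have h1 : φ (Submodule.Quotient.mk v) = Submodule.Quotient.mk (v : β → ℤ) := rfl
    rw [h1, Submodule.Quotient.mk_eq_zero] at hx
    rw [Submodule.Quotient.mk_eq_zero]
    exact hx
  · intro y hy
    obtain ⟨v, rfl⟩ := Submodule.Quotient.mk_surjective _ y
    obtain ⟨k, hk, hkv⟩ := isOfFinAddOrder_iff_nsmul_eq_zero.mp hy
    have h1 : (Submodule.Quotient.mk (k • v) : Cok M) = 0 := hkv
    rw [Submodule.Quotient.mk_eq_zero] at h1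
    have h2 := hsub h1
    rw [LinearMap.mem_ker, map_nsmul] at h2
    have h3 : N.vecMulLinear v = 0 := by
      funext c
      have h4 := congrFun h2 c
      rw [Pi.smul_apply, Pi.zero_apply, nsmul_eq_mul] at h4
      rcases mul_eq_zero.mp h4 with h5 | h5
      · exact absurd (by exact_mod_cast h5) hk.ne'
      · exact h5
    exact ⟨Submodule.Quotient.mk ⟨v, LinearMap.mem_ker.mpr h3⟩, rfl⟩

end Pool.Agent.Q66.TG
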