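import Pool.Agent.Q181.TG.Stm4

set_option autoImplicit false

/-! The intersection of the relations with the torsion is small. -/

namespace Pool.Agent.Q66.TG

open Pool.Agent.Q181.TG

variable {E : Type} [AddCommGroup E]

/-- a nonzero multiple of an element of infinite order has infinite order -/
theorem zsmul_torsion {x : E} (hx : x ∉ AddCommGroup.torsion E) {k : ℤ}
    (h : k • x ∈ AddCommGroup.torsion E) : k = 0 := by
  by_contra hk
  apply hx
  obtain ⟨n, hn, hn'⟩ := isOfFinAddOrder_iff_nsmul_eq_zero.mp h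
  rw [← natCast_zsmul, smul_smul] at hn'
  exact isOfFinAddOrder_iff_zsmul_eq_zero.mpr
    ⟨n * k, mul_ne_zero (by exact_mod_cast hn.ne') hk, hn'⟩

/-- the order of the torsion kills the torsion -/
theorem tc_smul [AddGroup.FG E] : 0 < tc E ∧ ∀ x ∈ AddCommGroup.torsion E, tc E • x = 0 := by
  have h1 : Finite (AddCommGroup.torsion E) := by
    have h2 : Module.Finite ℤ E := Module.Finite.iff_addGroup_fg.mpr inferInstance
    have h3 : Module.Finite ℤ (AddSubgroup.toIntSubmodule (AddCommGroup.torsion E)) :=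
      inferInstance
    have h5 : AddGroup.FG (AddCommGroup.torsion E) := Module.Finite.iff_addGroup_fg.mp h3
    refine AddCommGroup.finite_of_fg_isAddTorsion _ ?_
    intro x
    obtain ⟨n, hn, hn'⟩ := isOfFinAddOrder_iff_nsmul_eq_zero.mp x.2
    exact isOfFinAddOrder_iff_nsmul_eq_zero.mpr ⟨n, hn, Subtype.ext hn'⟩
  refine ⟨Nat.card_pos, fun x hx => ?_⟩
  have h2 : Nat.card (AddCommGroup.torsion E) • (⟨x, hx⟩ : AddCommGroup.torsion E) = 0 :=
    card_nsmul_eq_zero'
  exact congrArg Subtype.val h2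

theorem t_small : S_small := by
  classical
  intro E _ _ ξ η m hm hno
  have hm0 : NeZero m := ⟨by omega⟩
  obtain ⟨ht0, ht⟩ := tc_smul (E := E)
  let φ : (ZMod m → ℤ) →+ (ZMod m → E) :=
    { toFun := fun c j => c j • ξ + c (j - 1) • η
      map_zero' := by
        funext j
        simp
      map_add' := by
        intro c c'
        funext j
        simp only [Pi.add_apply, add_smul]
        abel }
  -- the relations are the values of the homomorphism
  have hR : ∀ y ∈ Qr (ZMod m) (fun j => j + 1) ξ η, ∃ c, φ c = y := by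
    intro y hy
    refine AddSubgroup.closure_induction (p := fun y _ => ∃ c, φ c = y) ?_ ?_ ?_ ?_ hy
    · rintro _ ⟨j, rfl⟩
      refine ⟨Pi.single j 1, ?_⟩
      funext i
      change (Pi.single j 1 : ZMod m → ℤ) i • ξ + (Pi.single j 1 : ZMod m → ℤ) (i - 1) • η = _
      have e1 : i - 1 = j ↔ i = j + 1 := sub_eq_iff_eq_add
      simp only [Pi.add_apply, Pi.single_apply, e1, ite_smul, one_smul, zero_smul]
      split_ifs <;> rfl
    · exact ⟨0, map_zero φ⟩
    · rintro _ _ _ _ ⟨c, rfl⟩ ⟨c', rfl⟩
      exact ⟨c + c', map_add φ c c'⟩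
    · rintro _ _ ⟨c, rfl⟩
      exact ⟨-c, map_neg φ c⟩
  have htor : ∀ y ∈ AddCommGroup.torsion (ZMod m → E), ∀ j, y j ∈ AddCommGroup.torsion E := by
    intro y hy j
    exact (Pi.evalAddMonoidHom (fun _ : ZMod m => E) j).isOfFinAddOrder hy
  -- the coefficients of the torsion relations are determined by the first one
  let K : AddSubgroup (ZMod m → ℤ) := (AddCommGroup.torsion (ZMod m → E)).comap φ
  have hK : ∀ c ∈ K, c 0 = 0 → c = 0 := by
    intro c hc h0
    have h1 : ∀ j, c j • ξ + c (j - 1) • η ∈ AddCommGroup.torsion E := htor (φ c) hc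
    by_cases hξ : ξ ∈ AddCommGroup.torsion E
    · have hη : η ∉ AddCommGroup.torsion E := fun h => hno ⟨hξ, h⟩
      have h2 : ∀ n : ℕ, c (-(n : ZMod m)) = 0 := by
        intro n
        induction n with
        | zero => simpa using h0
        | succ n ih =>
          have h3 := h1 (-(n : ZMod m))
          rw [ih, zero_smul, zero_add] at h3
          have h4 := zsmul_torsion hη h3
          rw [← h4]
          congr 1
          push_cast
          ring
      funext j
      have h3 := h2 (-j).val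
      rw [ZMod.natCast_zmod_val, neg_neg] at h3
      exact h3
    · have h2 : ∀ n : ℕ, c (n : ZMod m) = 0 := by
        intro n
        induction n with
        | zero => simpa using h0
        | succ n ih =>
          have h3 := h1 ((n : ZMod m) + 1)
          rw [add_sub_cancel_right, ih, zero_smul, add_zero] at h3
          have h4 := zsmul_torsion hξ h3
          rw [← h4]
          congr 1
          push_cast
          ring
      funext j
      have h3 := h2 j.val
      rw [ZMod.natCast_zmod_val] at h3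
      exact h3
  obtain ⟨a, ha⟩ := Int.subgroup_cyclic (K.map (Pi.evalAddMonoidHom (fun _ : ZMod m => ℤ) 0))
  obtain ⟨c₀, hc₀, hc₀'⟩ : ∃ c₀ ∈ K, c₀ 0 = a := by
    have h1 : a ∈ K.map (Pi.evalAddMonoidHom (fun _ : ZMod m => ℤ) 0) := by
      rw [ha]
      exact AddSubgroup.subset_closure rfl
    obtain ⟨c₀, h2, h3⟩ := h1
    exact ⟨c₀, h2, h3⟩
  have hsub : Qr (ZMod m) (fun j => j + 1) ξ η ⊓ AddCommGroup.torsion (ZMod m → E) ≤
      AddSubgroup.zmultiples (φ c₀) := by
    rintro y ⟨hy1, hy2⟩
    obtain ⟨c, rfl⟩ := hR y hy1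
    have hc : c ∈ K := hy2
    have h1 : c 0 ∈ K.map (Pi.evalAddMonoidHom (fun _ : ZMod m => ℤ) 0) := ⟨c, hc, rfl⟩
    rw [ha, AddSubgroup.mem_closure_singleton] at h1
    obtain ⟨k, hk⟩ := h1
    have h2 : c - k • c₀ = 0 := by
      refine hK _ (K.sub_mem hc (K.zsmul_mem hc₀ k)) ?_
      rw [Pi.sub_apply, Pi.smul_apply, hc₀', hk, sub_self]
    rw [sub_eq_zero] at h2
    rw [h2, map_zsmul]
    exact AddSubgroup.zsmul_mem_zmultiples (φ c₀) k
  have hkill : tc E • φ c₀ = 0 := by
    funext j
    exact ht _ (htor (φ c₀) hc₀ j)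
  have hfo : IsOfFinAddOrder (φ c₀) := isOfFinAddOrder_iff_nsmul_eq_zero.mpr ⟨_, ht0, hkill⟩
  have hfin : Finite (AddSubgroup.zmultiples (φ c₀)) := hfo.finite_zmultiples
  calc Nat.card (Qr (ZMod m) (fun j => j + 1) ξ η ⊓ AddCommGroup.torsion (ZMod m → E) :
        AddSubgroup (ZMod m → E))
      ≤ Nat.card (AddSubgroup.zmultiples (φ c₀)) :=
        Nat.card_le_card_of_injective _ (AddSubgroup.inclusion_injective hsub)
    _ = addOrderOf (φ c₀) := Nat.card_zmultiples _
    _ ≤ tc E := addOrderOf_le_of_nsmul_eq_zero ht0 hkill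

end Pool.Agent.Q66.TG
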