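import Pool.Agent.Q181.TG.Stm1
import Pool.Agent.Q181.BD.Fin

set_option autoImplicit false

/-! Two disjoint periodic paths. -/

namespace Pool.Agent.Q66.TG

open Pool.Agent.Q181.BD Pool.Agent.Q181.TG

variable {V : Type} {W : V → V → ℤ} {T : Equiv.Perm V}

theorem strip_zpow (hS : Strip W T) (n : ℤ) : ∀ u v, W ((T ^ n) u) ((T ^ n) v) = W u v := by
  induction n using Int.induction_on with
  | zero => intro u v; simp
  | succ n ih =>
    intro u v
    rw [zpow_add_one, Equiv.Perm.mul_apply, Equiv.Perm.mul_apply, ih, hS.inv]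
  | pred n ih =>
    intro u v
    rw [zpow_sub_one, Equiv.Perm.mul_apply, Equiv.Perm.mul_apply, ih]
    have h := hS.inv (T⁻¹ u) (T⁻¹ v)
    have e : ∀ x, T (T⁻¹ x) = x := fun x => T.apply_symm_apply x
    rw [e, e] at h
    exact h.symm

theorem per_line (hgeo : S_geo) {c : ℝ} (hN : Net W c) (hS : Strip W T) {z : ℤ → V} {d : ℤ}
    {L : ℕ} (hz : Per W T z d L) : ∃ p : ℤ → V, Line W p ∧ ∀ i, ∃ j, p i = z j := by
  refine hgeo V W hN.symm hN.loop hS.fin (fun v => (T ^ (d + d)) v)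
    (fun u v => strip_zpow hS (d + d) u v) z L hz.pos hz.inj hz.adj fun j => ?_
  rw [zpow_add, Equiv.Perm.mul_apply, hz.per, hz.per]
  congr 1
  ring

theorem twop (hgeo : S_geo) (htor : S_tor) : S_twop := by
  intro V W c T hN hS z z' d d' L L' hz hz' hdis
  obtain ⟨p, hp, hpz⟩ := per_line hgeo hN hS hz
  obtain ⟨q, hq, hqz⟩ := per_line hgeo hN hS hz'
  have hpq : Dis p q := by
    intro i j
    obtain ⟨i', hi⟩ := hpz i
    obtain ⟨j', hj⟩ := hqz j
    rw [hi, hj]
    exact hdis i' j'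
  obtain ⟨h1, h2⟩ := htor V W c hN p q hp hq hpq (hS.conn _ _)
  have hall : ∀ u, u ∈ Set.range p ∪ Set.range q := by
    intro u
    have hc : Relation.ReflTransGen (fun a b => W a b ≠ 0) (p 0) u := hS.conn (p 0) u
    induction hc with
    | refl => exact Or.inl ⟨0, rfl⟩
    | tail _ hbc ih => exact h1 _ _ ih hbc
  intro u u' S hS'
  exact h2 u (hall u) u' S hS'

theorem t_twop : S_twop := twop Pool.Agent.Q175.BD.t_geo Pool.Agent.Q181.BD.f_tor

end Pool.Agent.Q66.TG
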